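import Pool.Agent.R779.FJ.PortsTw

/-!
# Low K-groups of integral group rings: extensions by graph products with arbitrary twisting

`C` is any class of groups with the closure properties `ClosedE C`, all of which are known for the
class of the groups that satisfy the K-theoretic Farrell–Jones conjecture with coefficients and
finite wreath products; for the torsion-free groups in that class the Whitehead group, the reduced
projective class group and the negative K-groups of the integral group ring vanish.

Let `N` be a normal subgroup of `G` with `G ⧸ N` in `C`, and let `N` be the graph product of groups
`A v`, `v ∈ V`, over a graph on `V` of any cardinality; the groups `A v` need not be isomorphic.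
Suppose that the conjugation by each `g ∈ G` permutes the subgroups `A v` by an automorphism of the
graph, up to a conjugation by an element of `N`, and that the subgroup generated by `A v` and `g` is
in `C` if `g` normalizes `A v`. Then `G` is in `C`. The isomorphisms from `A v` to `A (τ v)` are
arbitrary, and the extension need not split. So for the torsion-free subgroups of `G` the Whitehead
group, the reduced projective class group and the negative K-groups of the integral group ring
vanish.

Outline of the proof. By a realization criterion it is enough to realize the conjugation by `g` on a
finite subset of `N` in a group in `C`. Choose a representative in every cycle of `τ` and identify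
the vertex groups of the cycle with the one of the representative by powers of `g`. Then a finite
part of `τ` with these twists is induced by an automorphism of the graph product of the
representative groups over a finite larger graph, and the semidirect product with `ℤ` is in `C`,
since up to finite index it preserves the vertex groups and then is an amalgamated product of groups
of the same kind along retracts.
-/

set_option autoImplicit false

namespace Pool.Agent.Results.MP_16fe43_al.TwistedGraphProducts

open Pool.Agent.Y110.FJ Pool.Agent.R779.FJ Pool.Agent.R779.FJ.Ports

theorem result (C : ∀ (G : Type) [Group G], Prop) (hC : ClosedE C)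
    (hS : ∀ (Γ : Type) [Group Γ], TorsionFree Γ → C Γ →
      WhTrivial Γ ∧ StablyFree Γ ∧ ∀ n : ℕ, 1 ≤ n → Subsingleton (KN n ℤ Γ))
    (V : Type) (Λ : SimpleGraph V) (A : V → Type) [∀ v, Group (A v)]
    (G : Type) [Group G] (N : Subgroup G) [N.Normal] (hQ : C (G ⧸ N)) (e : GrP Λ A ≃* N)
    (hact : Permutes e) (hloc : NormalizersIn C e) :
    C G ∧ ∀ (Γ : Type) [Group Γ], TorsionFree Γ →
      ∀ j : Γ →* G, Function.Injective j →
        WhTrivial Γ ∧ StablyFree Γ ∧ ∀ n : ℕ, 1 ≤ n → Subsingleton (KN n ℤ Γ) := by
  have h1 : C G := thmD C hC V Λ A G N hQ e hact hloc
  exact ⟨h1, fun Γ _ hΓ j hj => hS Γ hΓ (hC.base.of_injective _ _ j hj h1)⟩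

end Pool.Agent.Results.MP_16fe43_al.TwistedGraphProducts
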